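import Pool.Agent.LKU.Stmts
import Pool.Agent.Helper10_LKT.OPN

/-!
# OPB (MP_e0fe99_lc): the set Om2 is open
-/

set_option autoImplicit false

open Topology

namespace Pool.Agent.LKU.H6

open Pool.Agent.LCK Pool.Agent.LKT

theorem opb : OpbStmt := by
  have h1 : IsOpen {x : Fin 8 → E3 | ∀ i j : Fin 7, (i : ℕ) + 2 ≤ j →
      Disjoint (segment ℝ (vv x i.castSucc) (vv x i.succ))
        (segment ℝ (vv x j.castSucc) (vv x j.succ))} := by
    rw [Set.setOf_forall]
    refine isOpen_iInter_of_finite fun i => ?_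
    rw [Set.setOf_forall]
    refine isOpen_iInter_of_finite fun j => ?_
    by_cases h : (i : ℕ) + 2 ≤ j
    · have he : {x : Fin 8 → E3 | (i : ℕ) + 2 ≤ j →
          Disjoint (segment ℝ (vv x i.castSucc) (vv x i.succ))
            (segment ℝ (vv x j.castSucc) (vv x j.succ))} =
          {x : Fin 8 → E3 | Disjoint (segment ℝ (vv x i.castSucc) (vv x i.succ))
            (segment ℝ (vv x j.castSucc) (vv x j.succ))} := by
        ext x
        exact ⟨fun hx => hx h, fun hx _ => hx⟩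
      rw [he]
      exact H10.disj_open _ _ _ _ (H10.vv_cont _) (H10.vv_cont _) (H10.vv_cont _)
        (H10.vv_cont _)
    · have he : {x : Fin 8 → E3 | (i : ℕ) + 2 ≤ j →
          Disjoint (segment ℝ (vv x i.castSucc) (vv x i.succ))
            (segment ℝ (vv x j.castSucc) (vv x j.succ))} = Set.univ := by
        ext x
        exact ⟨fun _ => trivial, fun _ hx => absurd hx h⟩
      rw [he]
      exact isOpen_univ
  have h2 : ∀ (P : Fin 8 → Prop) (m n : Fin 8),
      IsOpen {x : Fin 8 → E3 | ∀ j : Fin 8, P j → ‖x j - x m‖ < ‖x n‖} := by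
    intro P m n
    rw [Set.setOf_forall]
    refine isOpen_iInter_of_finite fun j => ?_
    by_cases h : P j
    · have he : {x : Fin 8 → E3 | P j → ‖x j - x m‖ < ‖x n‖} =
          {x : Fin 8 → E3 | ‖x j - x m‖ < ‖x n‖} := by
        ext x
        exact ⟨fun hx => hx h, fun hx _ => hx⟩
      rw [he]
      exact isOpen_lt ((continuous_apply j).sub (continuous_apply m)).norm
        (continuous_apply n).norm
    · have he : {x : Fin 8 → E3 | P j → ‖x j - x m‖ < ‖x n‖} = Set.univ := by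
        ext x
        exact ⟨fun _ => trivial, fun _ hx => absurd hx h⟩
      rw [he]
      exact isOpen_univ
  have hOm : Om2 = {x : Fin 8 → E3 | ∀ i j : Fin 7, (i : ℕ) + 2 ≤ j →
      Disjoint (segment ℝ (vv x i.castSucc) (vv x i.succ))
        (segment ℝ (vv x j.castSucc) (vv x j.succ))} ∩
      ({x : Fin 8 → E3 | ∀ j : Fin 8, (2 ≤ j ∧ j ≤ 5) → ‖x j - x 1‖ < ‖x 0‖} ∩
      {x : Fin 8 → E3 | ∀ j : Fin 8, (1 ≤ j ∧ j ≤ 5) → ‖x j - x 6‖ < ‖x 7‖}) := by
    ext x
    constructor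
    · rintro ⟨a, b, c⟩
      exact ⟨a, fun j hj => b j hj.1 hj.2, fun j hj => c j hj.1 hj.2⟩
    · rintro ⟨a, b, c⟩
      exact ⟨a, fun j h h' => b j ⟨h, h'⟩, fun j h h' => c j ⟨h, h'⟩⟩
  unfold OpbStmt
  rw [hOm]
  exact h1.inter ((h2 _ 1 0).inter (h2 _ 6 7))

end Pool.Agent.LKU.H6
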